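import Mathlib

/-!
# Non-unique factorization of quaternionic polynomials into factors linear in one variable
-/

open Polynomial

namespace Pool.Agent.Results.MP_628392_al.NotSimilar

/-- `ℍ[u]`: polynomials in `u` with quaternionic coefficients; `u` commutes with coefficients. -/
abbrev K : Type := Polynomial (Quaternion ℝ)

/-- `ℍ[u, v] = ℍ[u][v]`: `v` is the outer variable, `u = C X`; both commute with the
coefficients and with each other, and `deg_v` is `natDegree`. -/
abbrev R : Type := Polynomial K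

/-- Similarity in the sense of Ore: `R / R A ≅ R / R B` as left `R`-modules
(`Ideal.span {A}` is the left ideal `R A`). -/
def Similar (A B : R) : Prop :=
  Nonempty ((R ⧸ Ideal.span {A}) ≃ₗ[R] (R ⧸ Ideal.span {B}))

/-- An admissible factorization `F = A 0 * A 1 * ⋯ * A (m - 1)`: every factor is irreducible and has
degree at most `1` in `v`. -/
def Admissible (F : R) {m : ℕ} (A : Fin m → R) : Prop :=
  (∀ i, Irreducible (A i) ∧ (A i).natDegree ≤ 1) ∧ F = (List.ofFn A).prod

/-! ### Generalities on `X - C r` over a noncommutative ring -/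

section General

variable {S : Type*} [Ring S]

theorem sub_eval_mem (r : S) (p : S[X]) : p - C (p.eval r) ∈ Ideal.span {X - C r} := by
  induction p using Polynomial.induction_on' with
  | add p q hp hq =>
    have : p + q - C ((p + q).eval r) = (p - C (p.eval r)) + (q - C (q.eval r)) := by
      rw [eval_add, C_add]; abel
    rw [this]
    exact Ideal.add_mem _ hp hq
  | monomial n a =>
    have h1 : (X : S[X]) ^ n - C r ^ n =
        (∑ i ∈ Finset.range n, X ^ i * C r ^ (n - 1 - i)) * (X - C r) :=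
      (Commute.geom_sum₂_mul (commute_X (C r)) n).symm
    have h2 : monomial n a - C ((monomial n a).eval r) =
        (C a * (∑ i ∈ Finset.range n, X ^ i * C r ^ (n - 1 - i))) * (X - C r) := by
      rw [eval_monomial, C_mul, C_pow, ← C_mul_X_pow_eq_monomial, ← mul_sub, h1, mul_assoc]
    rw [h2]
    exact Ideal.mul_mem_left _ _ (Ideal.subset_span rfl)

theorem mem_span_iff (r : S) (p : S[X]) : p ∈ Ideal.span {X - C r} ↔ p.eval r = 0 := by
  constructor
  · intro h
    rw [Ideal.mem_span_singleton'] at h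
    obtain ⟨q, rfl⟩ := h
    exact eval_mul_X_sub_C r
  · intro h
    have := sub_eval_mem r p
    rwa [h, C_0, sub_zero] at this

/-- An isomorphism `S[X] / S[X] (X - s) ≅ S[X] / S[X] (X - t)` yields `c`, `d` in `S` with
`d c = 1` and `s c = c t`. -/
theorem conj_of_equiv (s t : S)
    (f : (S[X] ⧸ Ideal.span {X - C s}) ≃ₗ[S[X]] (S[X] ⧸ Ideal.span {X - C t})) :
    ∃ c d : S, d * c = 1 ∧ s * c = c * t := by
  obtain ⟨g, hg⟩ := Submodule.Quotient.mk_surjective _ (f (Submodule.Quotient.mk 1))
  set c := g.eval t with hc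
  have hf1 : f (Submodule.Quotient.mk 1) = Submodule.Quotient.mk (C c) := by
    rw [← hg, Submodule.Quotient.eq]
    exact sub_eval_mem t g
  have hf : ∀ p : S[X], f (Submodule.Quotient.mk p) = Submodule.Quotient.mk (p * C c) := by
    intro p
    have h1 : (Submodule.Quotient.mk p : S[X] ⧸ Ideal.span {X - C s}) =
        p • Submodule.Quotient.mk 1 := by
      rw [← Submodule.Quotient.mk_smul, smul_eq_mul, mul_one]
    rw [h1, map_smul, hf1, ← Submodule.Quotient.mk_smul, smul_eq_mul]
  obtain ⟨p', hp'⟩ := f.surjective (Submodule.Quotient.mk 1)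
  obtain ⟨p, rfl⟩ := Submodule.Quotient.mk_surjective _ p'
  refine ⟨c, p.eval s, ?_, ?_⟩
  · have h1 : (Submodule.Quotient.mk p : S[X] ⧸ Ideal.span {X - C s}) =
        Submodule.Quotient.mk (C (p.eval s)) := by
      rw [Submodule.Quotient.eq]; exact sub_eval_mem s p
    rw [h1, hf, Submodule.Quotient.eq, mem_span_iff, ← C_mul, eval_sub, eval_C, eval_one,
      sub_eq_zero] at hp'
    exact hp'
  · have h1 : (Submodule.Quotient.mk X : S[X] ⧸ Ideal.span {X - C s}) =
        Submodule.Quotient.mk (C s) := by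
      rw [Submodule.Quotient.eq]; exact Ideal.subset_span rfl
    have h2 := hf X
    rw [h1, hf, Submodule.Quotient.eq, mem_span_iff, ← C_mul, eval_sub, eval_C, sub_eq_zero,
      X_mul_C, eval_C_mul, eval_X] at h2
    exact h2

/-- A monic linear polynomial over a domain is irreducible. -/
theorem irreducible_X_sub_C [NoZeroDivisors S] [Nontrivial S] (r : S) :
    Irreducible (X - C r : S[X]) := by
  have aux : ∀ p q : S, p * q = 1 → IsUnit p := by
    intro p q h
    have hp : p ≠ 0 := left_ne_zero_of_mul_eq_one h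
    have h2 : q * p = 1 := by
      have h3 : p * (q * p - 1) = 0 := by rw [mul_sub, ← mul_assoc, h]; simp
      rcases mul_eq_zero.mp h3 with h4 | h4
      · exact absurd h4 hp
      · exact sub_eq_zero.mp h4
    exact ⟨⟨p, q, h, h2⟩, rfl⟩
  constructor
  · intro h
    obtain ⟨u, hu⟩ := h
    have h1 : (X - C r) * ((u⁻¹ : S[X]ˣ) : S[X]) = 1 := by rw [← hu, Units.mul_inv]
    have h2 := congrArg natDegree h1
    have h3 : ((u⁻¹ : S[X]ˣ) : S[X]) ≠ 0 := right_ne_zero_of_mul_eq_one h1
    rw [natDegree_mul (X_sub_C_ne_zero r) h3, natDegree_X_sub_C, natDegree_one] at h2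
    omega
  · intro p q hpq
    have hp : p ≠ 0 := by
      rintro rfl; rw [zero_mul] at hpq; exact X_sub_C_ne_zero r hpq
    have hq : q ≠ 0 := by
      rintro rfl; rw [mul_zero] at hpq; exact X_sub_C_ne_zero r hpq
    have hdeg : p.natDegree + q.natDegree = 1 := by
      rw [← natDegree_mul hp hq, ← hpq, natDegree_X_sub_C]
    have hlead : p.leadingCoeff * q.leadingCoeff = 1 := by
      rw [← leadingCoeff_mul, ← hpq, leadingCoeff_X_sub_C]
    have hlead' : IsUnit q.leadingCoeff := by
      have hq0 : p.leadingCoeff ≠ 0 := leadingCoeff_ne_zero.mpr hp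
      obtain ⟨u, hu⟩ := aux _ _ hlead
      have : q.leadingCoeff = ((u⁻¹ : Sˣ) : S) := by
        rw [← hu] at hlead
        exact (Units.inv_eq_of_mul_eq_one_right hlead).symm
      rw [this]; exact Units.isUnit _
    rcases Nat.eq_zero_or_pos p.natDegree with h | h
    · left
      rw [eq_C_of_natDegree_eq_zero h]
      rw [eq_C_of_natDegree_eq_zero h, leadingCoeff_C] at hlead
      exact (aux _ _ hlead).map C
    · right
      have h0 : q.natDegree = 0 := by omega
      rw [eq_C_of_natDegree_eq_zero h0]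
      rw [eq_C_of_natDegree_eq_zero h0, leadingCoeff_C] at hlead'
      exact hlead'.map C

end General

/-! ### The example -/

/-- The quaternion `i`. -/
def qi : Quaternion ℝ := ⟨0, 1, 0, 0⟩

/-- The quaternion `j`. -/
def qj : Quaternion ℝ := ⟨0, 0, 1, 0⟩

theorem qi_mul_qi : qi * qi = -1 := by
  apply QuaternionAlgebra.ext
  · rw [Quaternion.re_neg, Quaternion.re_mul, Quaternion.re_one]; simp [qi]
  · rw [Quaternion.imI_neg, Quaternion.imI_mul, Quaternion.imI_one]; simp [qi]
  · rw [Quaternion.imJ_neg, Quaternion.imJ_mul, Quaternion.imJ_one]; simp [qi]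
  · rw [Quaternion.imK_neg, Quaternion.imK_mul, Quaternion.imK_one]; simp [qi]

theorem qj_mul_qj : qj * qj = -1 := by
  apply QuaternionAlgebra.ext
  · rw [Quaternion.re_neg, Quaternion.re_mul, Quaternion.re_one]; simp [qj]
  · rw [Quaternion.imI_neg, Quaternion.imI_mul, Quaternion.imI_one]; simp [qj]
  · rw [Quaternion.imJ_neg, Quaternion.imJ_mul, Quaternion.imJ_one]; simp [qj]
  · rw [Quaternion.imK_neg, Quaternion.imK_mul, Quaternion.imK_one]; simp [qj]

theorem qi_mul_qj : qi * qj = -(qj * qi) := by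
  apply QuaternionAlgebra.ext
  · rw [Quaternion.re_neg, Quaternion.re_mul, Quaternion.re_mul]; simp [qi, qj]
  · rw [Quaternion.imI_neg, Quaternion.imI_mul, Quaternion.imI_mul]; simp [qi, qj]
  · rw [Quaternion.imJ_neg, Quaternion.imJ_mul, Quaternion.imJ_mul]; simp [qi, qj]
  · rw [Quaternion.imK_neg, Quaternion.imK_mul, Quaternion.imK_mul]; simp [qi, qj]

theorem sq_eq (p q : K) (hp : ∀ z : K, Commute p z) (hq : ∀ z : K, Commute q z) :
    (p * C qi + q * C qj) * (p * C qi + q * C qj) = -(p * p + q * q) := by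
  have h1 : (C qi : K) * C qi = -1 := by rw [← C_mul, qi_mul_qi, C_neg, C_1]
  have h2 : (C qj : K) * C qj = -1 := by rw [← C_mul, qj_mul_qj, C_neg, C_1]
  have h3 : (C qi : K) * C qj = -(C qj * C qi) := by
    rw [← C_mul, ← C_mul, qi_mul_qj, C_neg]
  have e1 : p * C qi * (p * C qi) = p * p * (C qi * C qi) := by
    rw [mul_assoc, ← mul_assoc (C qi) p, ← (hp (C qi)).eq]; noncomm_ring
  have e2 : p * C qi * (q * C qj) = p * q * (C qi * C qj) := by
    rw [mul_assoc, ← mul_assoc (C qi) q, ← (hq (C qi)).eq]; noncomm_ring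
  have e3 : q * C qj * (p * C qi) = p * q * (C qj * C qi) := by
    rw [mul_assoc, ← mul_assoc (C qj) p, ← (hp (C qj)).eq, (hp q).eq]; noncomm_ring
  have e4 : q * C qj * (q * C qj) = q * q * (C qj * C qj) := by
    rw [mul_assoc, ← mul_assoc (C qj) q, ← (hq (C qj)).eq]; noncomm_ring
  rw [add_mul, mul_add, mul_add, e1, e2, e3, e4, h1, h2, h3]
  noncomm_ring

/-- `b = u² i + 2 j`. -/
noncomputable def b : K := X ^ 2 * C qi + 2 * C qj

/-- `b' = (u² - 2) i + 2 u j`. -/
noncomputable def b' : K := (X ^ 2 - 2) * C qi + (2 * X) * C qj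

theorem commute_two (z : K) : Commute (2 : K) z := (Nat.cast_commute 2 z)

theorem commute_Xsq (z : K) : Commute ((X : K) ^ 2) z := (commute_X z).pow_left 2

theorem b_sq : b * b = -(X ^ 4 + 4) := by
  rw [b, sq_eq _ _ commute_Xsq commute_two]
  have h4 : (4 : K) = 2 * 2 := by norm_num
  rw [h4]
  noncomm_ring

theorem b'_sq : b' * b' = -(X ^ 4 + 4) := by
  rw [b', sq_eq _ _ (fun z => (commute_Xsq z).sub_left (commute_two z))
    (fun z => (commute_two z).mul_left (commute_X z))]
  have h4 : (4 : K) = 2 * 2 := by norm_num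
  rw [h4]
  noncomm_ring

/-- `F = v² + u⁴ + 4`. -/
noncomputable def F : R := X ^ 2 + C (X ^ 4 + 4)

theorem F_eq (c : K) (hc : c * c = -(X ^ 4 + 4)) : F = (X + C c) * (X - C c) := by
  have h : (X + C c) * (X - C c) = X * X - C (c * c) := by
    rw [add_mul, mul_sub, mul_sub, C_mul, X_mul_C]; abel
  rw [h, hc, C_neg, F]; noncomm_ring

theorem coeff_b_one : b.coeff 1 = 0 := by
  have h2 : (2 : K) = C 2 := (C_ofNat 2).symm
  rw [b, h2, ← C_mul, coeff_add, coeff_X_pow_mul', coeff_C]
  simp

theorem coeff_b'_one : b'.coeff 1 = 2 * qj := by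
  have h2 : (2 : K) = C 2 := (C_ofNat 2).symm
  rw [b', h2, sub_mul, ← C_mul, mul_assoc, coeff_add, coeff_sub, coeff_X_pow_mul', coeff_C,
    coeff_C_mul, coeff_X_mul, coeff_C]
  simp

/-- No `X ± b` is similar to any `X ± b'`. -/
theorem not_similar (s t : K) (hs : s.coeff 1 = 0) (ht : t.coeff 1 ≠ 0) :
    ¬ Similar (X - C s) (X - C t) := by
  rintro ⟨f⟩
  obtain ⟨c, d, hdc, hst⟩ := conj_of_equiv s t f
  have hc0 : c ≠ 0 := right_ne_zero_of_mul_eq_one hdc
  have hd0 : d ≠ 0 := left_ne_zero_of_mul_eq_one hdc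
  have hdeg := congrArg natDegree hdc
  rw [natDegree_mul hd0 hc0, natDegree_one] at hdeg
  have hcC : c = C (c.coeff 0) := eq_C_of_natDegree_eq_zero (by omega)
  rw [hcC] at hst
  have h1 := congrArg (fun p : K => p.coeff 1) hst
  simp only [coeff_mul_C, coeff_C_mul, hs, zero_mul] at h1
  rcases mul_eq_zero.mp h1.symm with h2 | h2
  · rw [h2, C_0] at hcC; exact hc0 hcC
  · exact ht h2

theorem admissible (c : K) (hc : c * c = -(X ^ 4 + 4)) :
    Admissible F ![X + C c, X - C c] := by
  constructor
  · intro i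
    fin_cases i
    · have : (X + C c : R) = X - C (-c) := by rw [C_neg, sub_neg_eq_add]
      change Irreducible (X + C c : R) ∧ (X + C c : R).natDegree ≤ 1
      rw [this]
      exact ⟨irreducible_X_sub_C _, natDegree_X_sub_C_le _⟩
    · exact ⟨irreducible_X_sub_C _, natDegree_X_sub_C_le _⟩
  · rw [F_eq c hc]
    simp [List.ofFn_succ]

/-- There are a nonzero `F` in `ℍ[u, v]` and two admissible factorizations of `F` (here of the same
length) whose factors cannot be matched up into pairs of similar factors; in fact no factor of the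
first one is similar to a factor of the second one. -/
theorem result : ∃ F : R, F ≠ 0 ∧ ∃ (m n : ℕ) (A : Fin m → R) (B : Fin n → R),
    Admissible F A ∧ Admissible F B ∧ (∀ i j, ¬ Similar (A i) (B j)) ∧
    ¬ ∃ σ : Fin m ≃ Fin n, ∀ i, Similar (A i) (B (σ i)) := by
  have hns : ∀ i j, ¬ Similar ((![X + C b, X - C b] : Fin 2 → R) i)
      ((![X + C b', X - C b'] : Fin 2 → R) j) := by
    have h2j : (2 * qj : Quaternion ℝ) ≠ 0 := by
      intro h
      have h2 : qj + qj = 0 := by rw [← two_mul]; exact h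
      have := congrArg (fun q : Quaternion ℝ => q.imJ) h2
      simp only [Quaternion.imJ_add, Quaternion.imJ_zero] at this
      simp [qj] at this
    have e : ∀ c : K, (X + C c : R) = X - C (-c) := fun c => by rw [C_neg, sub_neg_eq_add]
    intro i j
    fin_cases i <;> fin_cases j
    · change ¬ Similar (X + C b) (X + C b')
      rw [e, e]
      apply not_similar
      · rw [coeff_neg, coeff_b_one, neg_zero]
      · rw [coeff_neg, coeff_b'_one]; exact neg_ne_zero.mpr h2j
    · change ¬ Similar (X + C b) (X - C b')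
      rw [e]
      apply not_similar
      · rw [coeff_neg, coeff_b_one, neg_zero]
      · rw [coeff_b'_one]; exact h2j
    · change ¬ Similar (X - C b) (X + C b')
      rw [e]
      apply not_similar
      · exact coeff_b_one
      · rw [coeff_neg, coeff_b'_one]; exact neg_ne_zero.mpr h2j
    · change ¬ Similar (X - C b) (X - C b')
      apply not_similar
      · exact coeff_b_one
      · rw [coeff_b'_one]; exact h2j
  refine ⟨F, ?_, 2, 2, ![X + C b, X - C b], ![X + C b', X - C b'], admissible b b_sq,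
    admissible b' b'_sq, hns, ?_⟩
  · rw [F_eq b b_sq]
    have : (X + C b : R) = X - C (-b) := by rw [C_neg, sub_neg_eq_add]
    rw [this]
    exact mul_ne_zero (X_sub_C_ne_zero _) (X_sub_C_ne_zero _)
  · rintro ⟨σ, hσ⟩
    exact hns 0 (σ 0) (hσ 0)

end Pool.Agent.Results.MP_628392_al.NotSimilar
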